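import Pool.Agent.FCY.Main

/-!
# MP_3243b0_gt : affine surfaces with a completely periodic direction (flat cylinders)
-/

namespace Pool.Agent.Results.MP_3243b0_gt.FlatCylinders

open Pool.Agent.FCY

/-- Let `G` be a closed connected gluing of flat cylinders of one direction which is not a
translation surface. Then there are simple directed cycles of pieces with product of scaling
factors `≠ 1`, and there is `N` such that for all moduli `m`: if the moduli of the cylinders on
one such cycle satisfy no integral relation of size at most `N`, then the surface with moduli `m`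
has a hyperbolic closed regular geodesic. For one cylinder this holds for every modulus, and for
two cylinders for all but finitely many values of the ratio of the moduli. -/
theorem result (V E : Type) [Fintype V] [DecidableEq V] [Nonempty V] [Fintype E]
    (G : Gluing V E) (hclosed : G.Closed) (hconn : G.Connected) (htrans : ¬ G.IsTranslation) :
    (∃ n e, G.IsCycle n e) ∧
    (∃ N : ℕ, ∀ m : V → ℝ, (∀ i, 0 < m i) → ∀ n e, G.IsCycle n e →
      NoRelation N (Set.range fun k => G.src (e k)) m → G.HasHyperbolic m) ∧
    (Subsingleton V → ∀ m : V → ℝ, (∀ i, 0 < m i) → G.HasHyperbolic m) ∧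
    (∀ i j : V, (∀ k, k = i ∨ k = j) →
      {r : ℝ | ∃ m : V → ℝ, (∀ k, 0 < m k) ∧ r = m i / m j ∧ ¬ G.HasHyperbolic m}.Finite) := by
  obtain ⟨n, e, hcy⟩ := Gluing.exists_cycle hclosed hconn htrans
  obtain ⟨N, hN⟩ := bound G hclosed
  refine ⟨⟨n, e, hcy⟩, ⟨N, fun m _ n e h => hN n e h m⟩, ?_, ?_⟩
  · intro hV m hm
    refine hN n e hcy m fun c hc _ _ h0 => hc ?_
    obtain ⟨i⟩ := ‹Nonempty V›
    have huniv : (Finset.univ : Finset V) = {i} := by
      ext k
      simpa using Subsingleton.elim k i
    rw [huniv, Finset.sum_singleton] at h0
    funext k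
    rw [Subsingleton.elim k i]
    have := (mul_eq_zero.mp h0).resolve_right (hm i).ne'
    exact_mod_cast this
  · intro i j hij
    exact two G (hN n e hcy) i j hij

end Pool.Agent.Results.MP_3243b0_gt.FlatCylinders
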