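import Pool.Agent.GTW.All

/-!
# Hyperbolic closed geodesics on affine surfaces of genus 2

Every closed affine surface of genus 2 with a geodesic triangulation whose vertices are exactly
the singular points (cone angles `2 k π`, `k ≥ 2`), and which is not a translation surface, has a
closed regular geodesic that is hyperbolic. Both strata (one singular point of angle `6π`, two
singular points of angle `4π`) are covered. The definitions are in `Pool/Agent/GTW/Defs.lean`.
-/

namespace Pool.Agent.Results.MP_3243b0_gt.GenusTwo

open Pool.Agent.GTW

/-- The genus 2 case: a triangulated affine surface of genus 2 is a translation surface or it has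
a hyperbolic closed regular geodesic. -/
theorem result (X : Glued) (hX : IsAffine X) (hg : HasGenus X 2) (hn : ¬ IsTranslation X) :
    HasHyperbolic X :=
  genusTwo X hX hg hn

end Pool.Agent.Results.MP_3243b0_gt.GenusTwo
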