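import Pool.Agent.HYE.LFinal
import Pool.Agent.HYE.P_NONV2

/-!
# Hyperbolic closed geodesics on affine surfaces made of hyperelliptic pieces

`Glued`, `IsAffine`, `HasGenus`, `IsTranslation`, `HasHyperbolic` are in
`Pool/Agent/GTW/Defs.lean`, `Hyp` is in `Pool/Agent/HYE/Defs.lean`, `Piece`, `TransPiece` are in
`Pool/Agent/HYE/LDefs.lean`, `Pieces` is in `Pool/Agent/HYE/LPieces.lean`.
-/

namespace Pool.Agent.Results.MP_3243b0_gt.Hyperelliptic

open Pool.Agent.GTW Pool.Agent.HYE

/-- Let `X` be an affine surface, any genus.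
(1) If `X` contains a hyperelliptic piece (two polygons with the same triangulation, the side `i` of
the first one glued to the side `i` of the second one for all `i` but one) that is not a translation
surface then `X` has a hyperbolic closed regular geodesic, whatever the rest of `X` is.
(2) If `X` is a union of hyperelliptic pieces, glued along their free sides in any way, and not a
translation surface, then it has a hyperbolic closed regular geodesic.
(3) The same for surfaces with a hyperelliptic triangulation.
(4) Surfaces as in (2), (3) which are not translation surfaces exist in every genus `g ≥ 2`, with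
`g` pieces in the case (2). -/
theorem result :
    (∀ (X : Glued) (ι : X.F → X.F) (rk : D X → ℕ) (R : Set X.F) (δ : D X),
      Piece X ι rk R δ → ¬ TransPiece X ι R δ → HasHyperbolic X) ∧
    (∀ (X : Glued) (k : Type) (ι : k → X.F → X.F) (rk : k → D X → ℕ) (R : k → Set X.F)
      (δ : k → D X), Pieces X k ι rk R δ → ¬ IsTranslation X → HasHyperbolic X) ∧
    (∀ (X : Glued) (ι : X.F → X.F) (rk : D X → ℕ), Hyp X ι rk → ¬ IsTranslation X →
      HasHyperbolic X) ∧
    ∀ g : ℕ, 2 ≤ g →
      (∃ (X : Glued) (ι : Fin g → X.F → X.F) (rk : Fin g → D X → ℕ) (R : Fin g → Set X.F)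
        (δ : Fin g → D X), Pieces X (Fin g) ι rk R δ ∧ IsAffine X ∧ HasGenus X g ∧
        ¬ IsTranslation X) ∧
      ∃ (X : Glued) (ι : X.F → X.F) (rk : D X → ℕ),
        Hyp X ι rk ∧ IsAffine X ∧ HasGenus X g ∧ ¬ IsTranslation X :=
  ⟨fun X ι rk R δ h hn => (piece_dichotomy X ι rk R δ h).resolve_right hn,
    fun _ _ _ _ _ _ h hn => not_not.1 fun hH => hn (pieces h hH),
    fun X ι rk h hn => hyperelliptic X ι rk h hn, fun g hg => ⟨P_NONV2 g hg, P_NONV g hg⟩⟩

end Pool.Agent.Results.MP_3243b0_gt.Hyperelliptic
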